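import Pool.Agent.Helper80.EC_F.Goals

/-!
# MP_ecc237_nt, PART F, packet PAR: parity decomposition (F9)
-/

set_option autoImplicit false

open MeasureTheory Filter Topology Set

namespace EC237

namespace PkPAR

/-- `χ(M) ν^c q^{Mν}`. -/
noncomputable def Fk (c : ℕ) (q : ℝ) (p : ℕ × ℕ) : ℝ :=
  chi ((p.1:ℤ) + 1) * ((p.2:ℝ) + 1) ^ c * q ^ ((p.1 + 1) * (p.2 + 1))

/-- The indicator of the even numbers. -/
noncomputable def E (k : ℕ) : ℝ := if Even k then 1 else 0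

theorem abs_chi_le (m : ℤ) : |chi m| ≤ 1 := by
  unfold chi
  split_ifs <;> simp

theorem chi_two_mul (m : ℤ) : chi (2 * m) = -chi m := by
  unfold chi
  have h : m % 3 = 0 ∨ m % 3 = 1 ∨ m % 3 = 2 := by omega
  rcases h with h | h | h
  · have h2 : (2 * m) % 3 = 0 := by omega
    rw [h, h2]
    norm_num
  · have h2 : (2 * m) % 3 = 2 := by omega
    rw [h, h2]
    norm_num
  · have h2 : (2 * m) % 3 = 1 := by omega
    rw [h, h2]
    norm_num

theorem summable_bound (c : ℕ) {q : ℝ} (h0 : 0 < q) (h1 : q < 1) :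
    Summable (fun p : ℕ × ℕ => q ^ p.1 * (((p.2:ℝ) + 1) ^ c * q ^ p.2)) := by
  have hg : Summable (fun n : ℕ => q ^ n) := summable_geometric_of_lt_one h0.le h1
  have hp : Summable (fun n : ℕ => (n:ℝ) ^ c * q ^ n) :=
    summable_pow_mul_geometric_of_norm_lt_one c (by
      rw [Real.norm_eq_abs, abs_of_pos h0]; exact h1)
  have hp2 : Summable (fun n : ℕ => ((n:ℝ) + 1) ^ c * q ^ n) := by
    have h := ((summable_nat_add_iff 1).mpr hp).mul_left q⁻¹
    refine h.congr fun n => ?_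
    push_cast
    rw [pow_succ]
    field_simp
  exact hg.mul_of_nonneg hp2 (fun n => by positivity) (fun n => by positivity)

theorem summable_Fk (c : ℕ) {q : ℝ} (h0 : 0 < q) (h1 : q < 1) :
    Summable (fun p : ℕ × ℕ => ‖Fk c q p‖) := by
  refine Summable.of_nonneg_of_le (fun p => norm_nonneg _) (fun p => ?_) (summable_bound c h0 h1)
  unfold Fk
  rw [Real.norm_eq_abs, abs_mul, abs_mul, abs_of_nonneg (pow_nonneg h0.le _),
    abs_of_nonneg (by positivity : (0:ℝ) ≤ ((p.2:ℝ) + 1) ^ c)]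
  have h2 : q ^ ((p.1 + 1) * (p.2 + 1)) ≤ q ^ p.1 * q ^ p.2 := by
    rw [← pow_add]
    refine pow_le_pow_of_le_one h0.le h1.le ?_
    nlinarith
  calc |chi ((p.1:ℤ) + 1)| * ((p.2:ℝ) + 1) ^ c * q ^ ((p.1 + 1) * (p.2 + 1))
      ≤ 1 * ((p.2:ℝ) + 1) ^ c * (q ^ p.1 * q ^ p.2) := by
        gcongr
        exact abs_chi_le _
    _ = q ^ p.1 * (((p.2:ℝ) + 1) ^ c * q ^ p.2) := by ring

theorem E_nonneg (k : ℕ) : 0 ≤ E k := by unfold E; split_ifs <;> norm_num

theorem E_le (k : ℕ) : E k ≤ 1 := by unfold E; split_ifs <;> norm_num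

theorem E_even {k : ℕ} (h : Even k) : E k = 1 := if_pos h

theorem E_odd {k : ℕ} (h : ¬ Even k) : E k = 0 := if_neg h

theorem summable_Fk' (c : ℕ) {q : ℝ} (h0 : 0 < q) (h1 : q < 1) (k : ℕ) (hk : k ≠ 0) :
    Summable (fun p : ℕ × ℕ => Fk c (q ^ k) p) :=
  (summable_Fk c (by positivity) (pow_lt_one₀ h0.le h1 hk)).of_norm

/-- Sum over `M` even. -/
theorem hasSum_E1 (c : ℕ) {q : ℝ} (h0 : 0 < q) (h1 : q < 1) :
    HasSum (fun p : ℕ × ℕ => E (p.1 + 1) * Fk c q p) (-∑' p, Fk c (q ^ 2) p) := by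
  have hinj : Function.Injective (fun p : ℕ × ℕ => (2 * p.1 + 1, p.2)) := by
    rintro ⟨a, b⟩ ⟨a', b'⟩ h
    simp only [Prod.mk.injEq] at h
    ext <;> simp only <;> omega
  refine (hinj.hasSum_iff ?_).mp ?_
  · rintro ⟨a, b⟩ hx
    have : ¬ Even (a + 1) := by
      rintro ⟨k, hk⟩
      refine hx ⟨(k - 1, b), ?_⟩
      simp only [Prod.mk.injEq, and_true]
      omega
    rw [E_odd this, zero_mul]
  · have e : (fun p : ℕ × ℕ => E (p.1 + 1) * Fk c q p) ∘ (fun p : ℕ × ℕ => (2 * p.1 + 1, p.2)) =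
        fun p => -(Fk c (q ^ 2) p) := by
      funext p
      simp only [Function.comp]
      rw [E_even ⟨p.1 + 1, by ring⟩, one_mul]
      unfold Fk
      have h2 : (((2 * p.1 + 1 : ℕ) : ℤ) + 1) = 2 * ((p.1 : ℤ) + 1) := by push_cast; ring
      simp only
      rw [h2, chi_two_mul, ← pow_mul]
      ring_nf
    rw [e]
    exact (summable_Fk' c h0 h1 2 (by norm_num)).hasSum.neg

/-- Sum over `ν` even. -/
theorem hasSum_E2 (c : ℕ) {q : ℝ} (h0 : 0 < q) (h1 : q < 1) :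
    HasSum (fun p : ℕ × ℕ => E (p.2 + 1) * Fk c q p) (2 ^ c * ∑' p, Fk c (q ^ 2) p) := by
  have hinj : Function.Injective (fun p : ℕ × ℕ => (p.1, 2 * p.2 + 1)) := by
    rintro ⟨a, b⟩ ⟨a', b'⟩ h
    simp only [Prod.mk.injEq] at h
    ext <;> simp only <;> omega
  refine (hinj.hasSum_iff ?_).mp ?_
  · rintro ⟨a, b⟩ hx
    have : ¬ Even (b + 1) := by
      rintro ⟨k, hk⟩
      refine hx ⟨(a, k - 1), ?_⟩
      simp only [Prod.mk.injEq, true_and]
      omega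
    rw [E_odd this, zero_mul]
  · have e : (fun p : ℕ × ℕ => E (p.2 + 1) * Fk c q p) ∘ (fun p : ℕ × ℕ => (p.1, 2 * p.2 + 1)) =
        fun p => 2 ^ c * Fk c (q ^ 2) p := by
      funext p
      simp only [Function.comp]
      rw [E_even ⟨p.2 + 1, by ring⟩, one_mul]
      unfold Fk
      simp only
      have h2 : (((2 * p.2 + 1 : ℕ) : ℝ) + 1) = 2 * ((p.2 : ℝ) + 1) := by push_cast; ring
      rw [h2, mul_pow, ← pow_mul]
      ring_nf
    rw [e]
    exact (summable_Fk' c h0 h1 2 (by norm_num)).hasSum.mul_left _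

/-- Sum over `M`, `ν` even. -/
theorem hasSum_E3 (c : ℕ) {q : ℝ} (h0 : 0 < q) (h1 : q < 1) :
    HasSum (fun p : ℕ × ℕ => E (p.1 + 1) * (E (p.2 + 1) * Fk c q p))
      (-(2 ^ c * ∑' p, Fk c (q ^ 4) p)) := by
  have hinj : Function.Injective (fun p : ℕ × ℕ => (2 * p.1 + 1, 2 * p.2 + 1)) := by
    rintro ⟨a, b⟩ ⟨a', b'⟩ h
    simp only [Prod.mk.injEq] at h
    ext <;> simp only <;> omega
  refine (hinj.hasSum_iff ?_).mp ?_
  · rintro ⟨a, b⟩ hx
    simp only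
    by_cases ha : Even (a + 1)
    · have : ¬ Even (b + 1) := by
        rintro ⟨k, hk⟩
        obtain ⟨l, hl⟩ := ha
        refine hx ⟨(l - 1, k - 1), ?_⟩
        simp only [Prod.mk.injEq]
        constructor <;> omega
      rw [E_odd this, zero_mul, mul_zero]
    · rw [E_odd ha, zero_mul]
  · have e : (fun p : ℕ × ℕ => E (p.1 + 1) * (E (p.2 + 1) * Fk c q p)) ∘
        (fun p : ℕ × ℕ => (2 * p.1 + 1, 2 * p.2 + 1)) =
        fun p => -(2 ^ c * Fk c (q ^ 4) p) := by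
      funext p
      simp only [Function.comp]
      rw [E_even ⟨p.1 + 1, by ring⟩, E_even ⟨p.2 + 1, by ring⟩, one_mul, one_mul]
      unfold Fk
      simp only
      have h2 : (((2 * p.2 + 1 : ℕ) : ℝ) + 1) = 2 * ((p.2 : ℝ) + 1) := by push_cast; ring
      have h3 : (((2 * p.1 + 1 : ℕ) : ℤ) + 1) = 2 * ((p.1 : ℤ) + 1) := by push_cast; ring
      rw [h2, h3, chi_two_mul, mul_pow, ← pow_mul]
      ring_nf
    rw [e]
    exact ((summable_Fk' c h0 h1 4 (by norm_num)).hasSum.mul_left _).neg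

theorem summable_EF {f : ℕ × ℕ → ℝ} (hf : Summable (fun p => ‖f p‖)) (g : ℕ × ℕ → ℝ)
    (hg : ∀ p, ‖g p‖ ≤ 1) : Summable (fun p => ‖g p * f p‖) := by
  refine Summable.of_nonneg_of_le (fun p => norm_nonneg _) (fun p => ?_) hf
  rw [norm_mul]
  calc _ ≤ 1 * ‖f p‖ := mul_le_mul_of_nonneg_right (hg p) (norm_nonneg _)
    _ = _ := one_mul _

theorem norm_E (k : ℕ) : ‖E k‖ ≤ 1 := by
  rw [Real.norm_eq_abs, abs_of_nonneg (E_nonneg k)]
  exact E_le k

theorem norm_E' (k : ℕ) : ‖1 - E k‖ ≤ 1 := by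
  rw [Real.norm_eq_abs, abs_of_nonneg (by linarith [E_le k])]
  linarith [E_nonneg k]

theorem hs {f g : ℕ × ℕ → ℝ} (hf : Summable (fun p => ‖f p‖)) (hg : Summable (fun p => ‖g p‖)) :
    HasSum (fun w : (ℕ × ℕ) × (ℕ × ℕ) => f w.1 * g w.2) ((∑' p, f p) * ∑' r, g r) := by
  rw [tsum_mul_tsum_of_summable_norm hf hg]
  exact (summable_mul_of_summable_norm hf hg).hasSum

theorem sign1 (a b : ℕ) : ((-1 : ℝ)) ^ ((a + 1) * (b + 2)) = 1 - 2 * ((1 - E (a + 1)) * E (b + 1)) := by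
  by_cases ha : Even (a + 1)
  · rw [E_even ha, (ha.mul_right _).neg_one_pow]; ring
  · by_cases hb : Even (b + 1)
    · rw [E_odd ha, E_even hb]
      have h1 : Odd ((a + 1) * (b + 2)) := by
        refine Odd.mul (Nat.not_even_iff_odd.mp ha) ?_
        obtain ⟨k, hk⟩ := hb
        exact ⟨k, by omega⟩
      rw [h1.neg_one_pow]; ring
    · rw [E_odd ha, E_odd hb]
      have h1 : Even ((a + 1) * (b + 2)) := by
        refine Even.mul_left ?_ _
        obtain ⟨k, hk⟩ := Nat.not_even_iff_odd.mp hb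
        exact ⟨k + 1, by omega⟩
      rw [h1.neg_one_pow]; ring

theorem sign2 (b a : ℕ) : ((-1 : ℝ)) ^ ((b + 1) * a) = 1 - 2 * ((1 - E (b + 1)) * E (a + 1)) := by
  by_cases hb : Even (b + 1)
  · rw [E_even hb, (hb.mul_right _).neg_one_pow]; ring
  · by_cases ha : Even (a + 1)
    · rw [E_odd hb, E_even ha]
      have h1 : Odd ((b + 1) * a) := by
        refine Odd.mul (Nat.not_even_iff_odd.mp hb) ?_
        obtain ⟨k, hk⟩ := ha
        exact ⟨k - 1, by omega⟩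
      rw [h1.neg_one_pow]; ring
    · rw [E_odd hb, E_odd ha]
      have h1 : Even ((b + 1) * a) := by
        refine Even.mul_left ?_ _
        obtain ⟨k, hk⟩ := Nat.not_even_iff_odd.mp ha
        exact ⟨k, by omega⟩
      rw [h1.neg_one_pow]; ring

theorem thm (_h1 : PF.G_SUMT) : PF.G_PAR := by
  intro y hy Q q' hQ hq'
  have hQ0 : 0 < Q := by rw [hQ]; exact Real.exp_pos _
  have hQ1 : Q < 1 := by
    rw [hQ, Real.exp_lt_one_iff]
    have := Real.pi_pos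
    nlinarith [mul_pos this hy]
  have hq0 : 0 < q' := by rw [hq']; exact Real.exp_pos _
  have hq1 : q' < 1 := by
    rw [hq', Real.exp_lt_one_iff]
    have h2 : 0 < Real.pi / (3 * y) := div_pos Real.pi_pos (by positivity)
    linarith
  have hXS : ∀ q : ℝ, XS q = ∑' p, Fk 2 q p := fun q => rfl
  have haS : ∀ q : ℝ, (aS q - 1) / 6 = ∑' p, Fk 0 q p := by
    intro q
    have : ∀ p : ℕ × ℕ, Fk 0 q p = chi ((p.1:ℤ) + 1) * q ^ ((p.1 + 1) * (p.2 + 1)) := by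
      intro p
      unfold Fk
      rw [pow_zero, mul_one]
    rw [tsum_congr this]
    unfold aS
    ring
  have sF := summable_Fk 2 hQ0 hQ1
  have sH := summable_Fk 0 hq0 hq1
  set F := Fk 2 Q with hF
  set H := Fk 0 q' with hH
  -- the sums of the first factor
  have f0 : HasSum F (XS Q) := by rw [hXS]; exact sF.of_norm.hasSum
  have f1 : HasSum (fun p : ℕ × ℕ => (1 - E (p.1 + 1)) * F p) (XS Q + XS (Q ^ 2)) := by
    have h := f0.sub (hasSum_E1 2 hQ0 hQ1)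
    rw [← hXS, sub_neg_eq_add] at h
    have e : (fun p : ℕ × ℕ => (1 - E (p.1 + 1)) * F p) =
        fun p => F p - E (p.1 + 1) * Fk 2 Q p := by
      funext p; rw [hF]; ring
    rw [e]
    exact h
  have f2 : HasSum (fun p : ℕ × ℕ => (1 - E (p.2 + 1)) * F p) (XS Q - 4 * XS (Q ^ 2)) := by
    have h := f0.sub (hasSum_E2 2 hQ0 hQ1)
    rw [← hXS] at h
    have e : (fun p : ℕ × ℕ => (1 - E (p.2 + 1)) * F p) =
        fun p => F p - E (p.2 + 1) * Fk 2 Q p := by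
      funext p; rw [hF]; ring
    rw [e]
    norm_num at h
    exact h
  have f3 : HasSum (fun p : ℕ × ℕ => ((1 - E (p.1 + 1)) * (1 - E (p.2 + 1))) * F p)
      (XS Q - 3 * XS (Q ^ 2) - 4 * XS (Q ^ 4)) := by
    have h := ((f0.sub (hasSum_E1 2 hQ0 hQ1)).sub (hasSum_E2 2 hQ0 hQ1)).add
      (hasSum_E3 2 hQ0 hQ1)
    rw [← hXS, ← hXS] at h
    have e : (fun p : ℕ × ℕ => ((1 - E (p.1 + 1)) * (1 - E (p.2 + 1))) * F p) =
        fun p => F p - E (p.1 + 1) * Fk 2 Q p - E (p.2 + 1) * Fk 2 Q p +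
          E (p.1 + 1) * (E (p.2 + 1) * Fk 2 Q p) := by
      funext p; rw [hF]; ring
    rw [e]
    have e2 : XS Q - -XS (Q ^ 2) - 2 ^ 2 * XS (Q ^ 2) + -(2 ^ 2 * XS (Q ^ 4)) =
        XS Q - 3 * XS (Q ^ 2) - 4 * XS (Q ^ 4) := by ring
    rw [e2] at h
    exact h
  -- the sums of the second factor
  have g0 : HasSum H ((aS q' - 1) / 6) := by rw [haS]; exact sH.of_norm.hasSum
  have g1 : HasSum (fun p : ℕ × ℕ => E (p.2 + 1) * H p) ((aS (q' ^ 2) - 1) / 6) := by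
    have h := hasSum_E2 0 hq0 hq1
    rw [← haS, pow_zero, one_mul] at h
    exact h
  have g2 : HasSum (fun p : ℕ × ℕ => E (p.1 + 1) * H p) (-((aS (q' ^ 2) - 1) / 6)) := by
    have h := hasSum_E1 0 hq0 hq1
    rw [← haS] at h
    exact h
  have g3 : HasSum (fun p : ℕ × ℕ => (E (p.1 + 1) * E (p.2 + 1)) * H p)
      (-((aS (q' ^ 4) - 1) / 6)) := by
    have h := hasSum_E3 0 hq0 hq1
    rw [← haS, pow_zero, one_mul] at h
    have e : (fun p : ℕ × ℕ => (E (p.1 + 1) * E (p.2 + 1)) * H p) =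
        fun p => E (p.1 + 1) * (E (p.2 + 1) * Fk 0 q' p) := by
      funext p; rw [hH]; ring
    rw [e]
    exact h
  have w0 := hs sF sH
  have w1 := hs (summable_EF sF (fun p => 1 - E (p.1 + 1)) fun p => norm_E' _)
    (summable_EF sH (fun p => E (p.2 + 1)) fun p => norm_E _)
  have w2 := hs (summable_EF sF (fun p => 1 - E (p.2 + 1)) fun p => norm_E' _)
    (summable_EF sH (fun p => E (p.1 + 1)) fun p => norm_E _)
  have w3 := hs (summable_EF sF (fun p => (1 - E (p.1 + 1)) * (1 - E (p.2 + 1)))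
      fun p => by rw [norm_mul]; exact mul_le_one₀ (norm_E' _) (norm_nonneg _) (norm_E' _))
    (summable_EF sH (fun p => E (p.1 + 1) * E (p.2 + 1))
      fun p => by rw [norm_mul]; exact mul_le_one₀ (norm_E _) (norm_nonneg _) (norm_E _))
  rw [f0.tsum_eq, g0.tsum_eq] at w0
  rw [f1.tsum_eq, g1.tsum_eq] at w1
  rw [f2.tsum_eq, g2.tsum_eq] at w2
  rw [f3.tsum_eq, g3.tsum_eq] at w3
  have hall := ((w0.neg.add (w1.mul_left 2)).add (w2.mul_left 2)).sub (w3.mul_left 4)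
  have hT : ∀ w : (ℕ × ℕ) × (ℕ × ℕ), PF.tT y w = -(F w.1 * H w.2) +
      2 * ((1 - E (w.1.1 + 1)) * F w.1 * (E (w.2.2 + 1) * H w.2)) +
      2 * ((1 - E (w.1.2 + 1)) * F w.1 * (E (w.2.1 + 1) * H w.2)) -
      4 * ((1 - E (w.1.1 + 1)) * (1 - E (w.1.2 + 1)) * F w.1 *
        (E (w.2.1 + 1) * E (w.2.2 + 1) * H w.2)) := by
    rintro ⟨⟨a, b⟩, ⟨c, d⟩⟩
    unfold PF.tT
    rw [hF, hH]
    unfold Fk
    simp only
    have e1 : Real.exp (-(Real.pi * ((a:ℝ) + 1) * ((b:ℝ) + 1) * y) -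
        Real.pi * ((c:ℝ) + 1) * ((d:ℝ) + 1) / (3 * y)) =
        Q ^ ((a + 1) * (b + 1)) * q' ^ ((c + 1) * (d + 1)) := by
      rw [hQ, hq', ← Real.exp_nat_mul, ← Real.exp_nat_mul, ← Real.exp_add]
      congr 1
      push_cast
      field_simp
      ring
    rw [e1, pow_add, sign1, sign2]
    ring
  have e : PF.tT y = fun w => -(F w.1 * H w.2) +
      2 * ((1 - E (w.1.1 + 1)) * F w.1 * (E (w.2.2 + 1) * H w.2)) +
      2 * ((1 - E (w.1.2 + 1)) * F w.1 * (E (w.2.1 + 1) * H w.2)) -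
      4 * ((1 - E (w.1.1 + 1)) * (1 - E (w.1.2 + 1)) * F w.1 *
        (E (w.2.1 + 1) * E (w.2.2 + 1) * H w.2)) := funext hT
  have htt := hall
  rw [← e] at htt
  unfold PF.TT
  rw [htt.tsum_eq]
  ring

end PkPAR

end EC237
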